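import Pool.Agent.Q76.HM.Fin

/-!
# A hypercyclic `L ^ p` multiplier on hyperbolic three space with symbol bounded by one

`X = SO_e(3,1) / SO(3)` is the hyperbolic space of dimension three, in the upper half space model
`{(x, t) : x ∈ ℂ, t > 0}` with the invariant measure `dx dt / t ^ 3`; real rank one and `ρ = 1`. The
pair `(z, s) : ℂ × ℝ` stands for the point `(e ^ s z, e ^ s)`; in these coordinates the invariant
measure is Lebesgue measure `dz ds`. `Pool.Agent.Q76.HM.ch x y` is the hyperbolic cosine of the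
distance and, for `b : Option ℂ` a point of the boundary sphere (`none` is the point at infinity),
`Pool.Agent.Q76.HM.wav l b` is the function `e ^ ((1 - i l) A(x, b))` of the Helgason Fourier
transform, `A(x, b)` the logarithm of the Poisson kernel of `b` normalised at the origin `(0, 1)`.

For every `p > 2` there is a bounded operator on `L ^ p (X)` which commutes with all isometries, whose
symbol on the closed strip `Λ_p = {|Im l| ≤ 1 - 2 / p}` is `tanh (π l / (4 (1 - 2 / p))) ^ 2`, of
modulus at most one on `Λ_p` and less than one in the interior, and which is hypercyclic.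
-/

set_option autoImplicit false

namespace Pool.Agent.Results.MP_e4fe74_an.SymbolBoundedByOne

open MeasureTheory Set
open scoped ENNReal
open Pool.Agent.Q76.HM (ch wav)

/-- the symbol -/
noncomputable def sym (p : ℝ) (l : ℂ) : ℂ :=
  Complex.tanh (Real.pi * l / (4 * (1 - 2 / p : ℝ))) ^ 2

theorem result (p : ℝ) (hp : 2 < p) [Fact (1 ≤ ENNReal.ofReal p)] :
    ∃ T : Lp ℂ (ENNReal.ofReal p) (volume : Measure (ℂ × ℝ)) →L[ℂ]
        Lp ℂ (ENNReal.ofReal p) (volume : Measure (ℂ × ℝ)),
      (∀ (g : ℂ × ℝ → ℂ × ℝ) (hg : MeasurePreserving g volume volume),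
        (∀ x y, ch (g x) (g y) = ch x y) → ∀ f,
          T (Lp.compMeasurePreserving g hg f) = Lp.compMeasurePreserving g hg (T f)) ∧
      (∀ f : ℂ × ℝ → ℂ, Continuous f → HasCompactSupport f →
        ∀ F : Lp ℂ (ENNReal.ofReal p) (volume : Measure (ℂ × ℝ)), ⇑F =ᵐ[volume] f →
          ∀ l : ℂ, |l.im| ≤ 1 - 2 / p → ∀ b : Option ℂ,
            Integrable (fun x => T F x * wav l b x) ∧
            ∫ x, T F x * wav l b x = sym p l * ∫ x, f x * wav l b x) ∧
      (∀ l : ℂ, |l.im| ≤ 1 - 2 / p → ‖sym p l‖ ≤ 1) ∧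
      (∀ l : ℂ, |l.im| < 1 - 2 / p → ‖sym p l‖ < 1) ∧
      ∃ f, Dense (range fun n : ℕ => (T ^ n) f) :=
  Pool.Agent.Q76.HM.main p hp

end Pool.Agent.Results.MP_e4fe74_an.SymbolBoundedByOne
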